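import Pool.Agent.Helper17.ZTH.Limit

/-!
# The size of the least unavoidable sets of words

The least number of words of length `n` in a set which every nonzero finite configuration meets
within a bounded time, at every position, is asymptotic to `(log 3 / log 6) * 6 ^ n / n`.
-/

set_option autoImplicit false

namespace Pool.Agent.Results.MP_cc0c1a_nt.SharpUnavoidable

/-- Configurations: bi-infinite sequences of base-`6` digits. -/
abbrev Conf := ℤ → Fin 6

/-- The local rule `f(s,t) = (3 s mod 6) + ⌊3 t / 6⌋`. -/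
def f (s t : Fin 6) : Fin 6 := ⟨(3 * (s : ℕ)) % 6 + (3 * (t : ℕ)) / 6, by omega⟩

/-- The automaton `F_{×3}`. -/
def F3 (x : Conf) : Conf := fun i => f (x i) (x (i + 1))

/-- The automaton `F = F_{×3} ∘ F_{×3} ∘ σ⁻¹`. -/
def F (x : Conf) : Conf := F3 (F3 fun i => x (i - 1))

/-- A configuration is finite when only finitely many cells are not `0`. -/
def IsFin (x : Conf) : Prop := {i | x i ≠ 0}.Finite

/-- For some time `T`, every finite configuration `x ≠ 0` shows, at every position `j`, a word of
`W` in one of the configurations `x, F x, …, F^T x`. -/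
def Met {n : ℕ} (W : Finset (Fin n → Fin 6)) : Prop :=
  ∃ T : ℕ, ∀ x : Conf, IsFin x → x ≠ 0 → ∀ j : ℤ,
    ∃ t ≤ T, (fun i : Fin n => F^[t] x (j + (i : ℕ))) ∈ W

/-- The least number of words of length `n` in a set `W` with `Met W`. -/
noncomputable def u (n : ℕ) : ℕ :=
  sInf {c : ℕ | ∃ W : Finset (Fin n → Fin 6), Met W ∧ W.card = c}

/-- `n * u n / 6 ^ n` tends to `log 3 / log 6`; and a set `W` satisfies `Met W` if and only if
every configuration, finite or not, shows a word of `W` at every position at some time. -/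
theorem result :
    Filter.Tendsto (fun n : ℕ => (n : ℝ) * u n / 6 ^ n) Filter.atTop
      (nhds (Real.log 3 / Real.log 6)) ∧
    ∀ (n : ℕ) (W : Finset (Fin n → Fin 6)), Met W ↔
      ∀ (x : Conf) (j : ℤ), ∃ t : ℕ, (fun i : Fin n => F^[t] x (j + (i : ℕ))) ∈ W :=
  ⟨Helper17.ZTH.limit, fun _ W => Helper17.ZTH.met_iff W⟩

end Pool.Agent.Results.MP_cc0c1a_nt.SharpUnavoidable
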