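import Pool.Agent.Helper17.ZTH.Words
import Pool.Agent.Helper17.ZTH.Sharp

/-!
# Unavoidable sets of words for the base-6 automaton of multiplication by `3/2`

The least proportion of words of length `n` which a set must contain so that every orbit meets it
is of the order `1 / n`.
-/

set_option autoImplicit false

namespace Pool.Agent.Results.MP_cc0c1a_nt.SmallUnavoidableSets

/-- Configurations: bi-infinite sequences of base-`6` digits. -/
abbrev Conf := ℤ → Fin 6

/-- The local rule `f(s,t) = (3 s mod 6) + ⌊3 t / 6⌋`. -/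
def f (s t : Fin 6) : Fin 6 := ⟨(3 * (s : ℕ)) % 6 + (3 * (t : ℕ)) / 6, by omega⟩

/-- The automaton `F_{×3}`. -/
def F3 (x : Conf) : Conf := fun i => f (x i) (x (i + 1))

/-- The automaton `F = F_{×3} ∘ F_{×3} ∘ σ⁻¹`. -/
def F (x : Conf) : Conf := F3 (F3 fun i => x (i - 1))

/-- A configuration is finite when only finitely many cells are not `0`. -/
def IsFin (x : Conf) : Prop := {i | x i ≠ 0}.Finite

/-- The number with the base-`6` digits `w 0, …, w (n-1)`, most significant digit first. -/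
def num {n : ℕ} (w : Fin n → Fin 6) : ℕ := ∑ i : Fin n, (w i : ℕ) * 6 ^ (n - 1 - (i : ℕ))

/-- The interval of the reals of `[0,1)` whose first `n` base-`6` digits are `w`. -/
def cyl {n : ℕ} (w : Fin n → Fin 6) : Set ℝ :=
  Set.Ico ((num w : ℝ) / 6 ^ n) (((num w : ℝ) + 1) / 6 ^ n)

/-- For every `n ≥ 3` there is a set of fewer than `2 * 6 ^ n / n` words of length `n` (fewer than
`6 ^ n / n` if `n` is prime) which every orbit meets infinitely often, at every position, and every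
set of at most `6 ^ n / (225 * n)` words is avoided by the orbit of some real number. -/
theorem result (n : ℕ) (hn : 3 ≤ n) :
    (∃ W : Finset (Fin n → Fin 6),
      n * W.card < 2 * 6 ^ n ∧ (n.Prime → n * W.card < 6 ^ n) ∧
      (∀ x : Conf, IsFin x → x ≠ 0 → ∀ j : ℤ,
        {t : ℕ | (fun i : Fin n => F^[t] x (j + (i : ℕ))) ∈ W}.Infinite) ∧
      (∀ ξ : ℝ, ξ ≠ 0 →
        {k : ℕ | ∃ w ∈ W, Int.fract (ξ * (3 / 2 : ℝ) ^ k) ∈ cyl w}.Infinite)) ∧
    (∀ W : Finset (Fin n → Fin 6), 225 * n * W.card ≤ 6 ^ n →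
      ∃ ξ : ℝ, 1 ≤ ξ ∧ ξ ≤ 2 ∧ ∀ k : ℕ, ∀ w ∈ W, Int.fract (ξ * (3 / 2 : ℝ) ^ k) ∉ cyl w) := by
  refine ⟨?_, fun W hW => ?_⟩
  · obtain ⟨W, h1, h2, h3, h4⟩ := Helper17.ZTH.words hn
    exact ⟨W, h1, h2, h4, h3⟩
  · classical
    have hl : (1 : ℝ) < 3 / 2 := by norm_num
    have hM : ((6 : ℕ) : ℝ) ^ n ≤ (3 / 2 : ℝ) ^ (5 * n) := by
      rw [pow_mul]
      refine pow_le_pow_left₀ (by norm_num) ?_ n
      norm_num
    have hcard : (W.image num).card ≤ W.card := Finset.card_image_le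
    obtain ⟨ξ, h1, h2, h3⟩ := Helper17.ZTH.Sharp.avoid (b := 6) (n := n) (E := W.image num)
      (M := 5 * n) hl (by norm_num) (by omega) (fun e he => by
        obtain ⟨w, _, rfl⟩ := Finset.mem_image.1 he
        exact Helper17.ZTH.enc_lt w) hM (by omega) (by nlinarith)
    refine ⟨ξ, h1, h2, fun k w hw hk => h3 k (Finset.mem_image.2 ⟨w, hw, ?_⟩)⟩
    have h4 := (Helper17.ZTH.code_iff (n := n) (y := ξ * (3 / 2 : ℝ) ^ k) (e := num w)).2 hk
    rw [← h4, Helper17.ZTH.code]

end Pool.Agent.Results.MP_cc0c1a_nt.SmallUnavoidableSets
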